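import Pool.Agent.W24.NC.Main

/-!
# Arbitrary sets of small prime ideals in the Arakelov class group: the deterministic part
-/

set_option autoImplicit false

namespace Pool.Agent.W24.AR

open Finset Filter NumberField Pool.Agent.H38R2.CG Pool.Agent.H38R2.CG3 Pool.Agent.W24.NC
open scoped Classical

theorem phi_nonneg (t : ℝ) : 0 ≤ phi t := le_max_left _ _

/-- one element bounds the kernel from below -/
theorem KAB_ge (hKF : P_KF) (K : Type) [Field K] [NumberField K] (D : ℕ) (hD : IsFund D)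
    (h2 : Module.finrank ℚ K = 2) (hK : NumberField.discr K = (D : ℤ)) (e : Emb K D)
    (A B : Ideal (𝓞 K)) (hA : A ≠ ⊥) (hB : B ≠ ⊥) (y : K) (hy : y ∈ XAB e A B)
    (hlog : |Real.log (e.σ y / e.τ y)| ≤ 1 / 4) : 3 / 4 ≤ KAB e A B := by
  have hfin := hKF K D hD h2 hK e A B hA hB
  have h1 : KAB e A B = ∑ x ∈ hfin.toFinset, phi (Real.log (e.σ x / e.τ x)) := by
    unfold KAB
    refine finsum_mem_eq_sum_of_subset _ ?_ ?_
    · rintro x ⟨hx1, hx2⟩
      rw [Set.Finite.coe_toFinset]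
      refine ⟨hx1, ?_⟩
      by_contra hcon
      apply hx2
      show phi (Real.log (e.σ x / e.τ x)) = 0
      have h3 : 1 < |Real.log (e.σ x / e.τ x)| := by
        rw [Set.mem_ofPred_eq] at hcon
        exact not_le.1 hcon
      unfold phi
      exact max_eq_left (by linarith)
    · intro x hx
      rw [Set.Finite.coe_toFinset] at hx
      exact hx.1
  rw [h1]
  have hmem : y ∈ hfin.toFinset := by
    rw [Set.Finite.mem_toFinset]
    refine ⟨hy, ?_⟩
    show |Real.log (e.σ y / e.τ y)| ≤ 1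
    linarith
  refine le_trans ?_ (Finset.single_le_sum (f := fun x => phi (Real.log (e.σ x / e.τ x)))
    (fun x _ => phi_nonneg _) hmem)
  show 3 / 4 ≤ phi (Real.log (e.σ y / e.τ y))
  unfold phi
  exact le_max_of_le_right (by linarith)

theorem Rsum_nonneg (D n : ℕ) : 0 ≤ Rsum D n := by
  unfold Rsum
  refine Finset.sum_nonneg fun u _ => Finset.sum_nonneg fun v _ => ?_
  split_ifs
  · exact phi_nonneg _
  · exact le_rfl

/-- the label of an element: signs and a quarter unit cell -/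
noncomputable def lab (s t : ℝ) : Bool × Bool × ℤ :=
  (decide (0 < s), decide (0 < t), ⌊4 * Real.log |s / t|⌋)

theorem lab_mem {s t : ℝ} (h : |Real.log (|s / t|)| ≤ 1) :
    lab s t ∈ (Finset.univ : Finset Bool) ×ˢ (Finset.univ : Finset Bool) ×ˢ
      (Finset.Icc (-4 : ℤ) 4) := by
  unfold lab
  simp only [Finset.mem_product, Finset.mem_univ, true_and, Finset.mem_Icc]
  rw [abs_le] at h
  constructor
  · rw [Int.le_floor]
    push_cast
    linarith [h.1]
  · rw [← Int.lt_add_one_iff, Int.floor_lt]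
    push_cast
    linarith [h.2]

theorem lab_eq {s t s' t' : ℝ} (hs : s ≠ 0) (ht : t ≠ 0) (hs' : s' ≠ 0) (ht' : t' ≠ 0)
    (h : lab s t = lab s' t') : 0 < s' / s ∧ 0 < t' / t ∧
      |Real.log ((s' / s) / (t' / t))| ≤ 1 / 4 := by
  unfold lab at h
  simp only [Prod.mk.injEq, decide_eq_decide] at h
  obtain ⟨h1, h2, h3⟩ := h
  have k1 : 0 < s' / s := by
    rcases lt_or_gt_of_ne hs with h4 | h4
    · have : ¬ 0 < s' := fun h5 => absurd (h1.2 h5) (not_lt.2 h4.le)
      exact div_pos_of_neg_of_neg (lt_of_le_of_ne (not_lt.1 this) hs') h4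
    · exact div_pos (h1.1 h4) h4
  have k2 : 0 < t' / t := by
    rcases lt_or_gt_of_ne ht with h4 | h4
    · have : ¬ 0 < t' := fun h5 => absurd (h2.2 h5) (not_lt.2 h4.le)
      exact div_pos_of_neg_of_neg (lt_of_le_of_ne (not_lt.1 this) ht') h4
    · exact div_pos (h2.1 h4) h4
  refine ⟨k1, k2, ?_⟩
  have h4 : Real.log ((s' / s) / (t' / t)) = Real.log |s' / t'| - Real.log |s / t| := by
    rw [← Real.log_div (by positivity) (by positivity), ← abs_div, Real.log_abs]
    congr 1
    field_simp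
  rw [h4]
  have h5 := Int.abs_sub_lt_one_of_floor_eq_floor h3
  rw [← mul_sub, abs_mul, abs_of_pos (by norm_num : (0 : ℝ) < 4)] at h5
  rw [abs_sub_comm] at h5
  linarith

/-- Products of `k` ideals of prime norm, one for each prime of a set `P ⊆ Q`: a set of ideals such
that each of the products is close to one of its members is large. -/
theorem cells (hKF : P_KF) (hN6 : P_N6) (K : Type) [Field K] [NumberField K] (D : ℕ)
    (hD : IsFund D) (h2 : Module.finrank ℚ K = 2) (hK : NumberField.discr K = (D : ℤ))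
    (e : Emb K D)
    (Q P : Finset ℕ) (hQ : ∀ p ∈ Q, p.Prime ∧ p ≠ 2) (hPQ : P ⊆ Q) (k : ℕ)
    (I : ℕ → nonZeroDivisors (Ideal (𝓞 K)))
    (hI : ∀ p ∈ P, Ideal.absNorm (I p : Ideal (𝓞 K)) = p)
    (Z : Finset (Ideal (𝓞 K)))
    (hZ : ∀ s ∈ P.powersetCard k, ∃ z ∈ Z, ∃ x : K, x ≠ 0 ∧
      FractionalIdeal.spanSingleton (nonZeroDivisors (𝓞 K)) x *
        (z : FractionalIdeal (nonZeroDivisors (𝓞 K)) K) =
        ((∏ p ∈ s, I p : nonZeroDivisors (Ideal (𝓞 K))) : Ideal (𝓞 K)) ∧
      |Real.log (|e.σ x / e.τ x|)| ≤ 1) :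
    (P.card.choose k : ℝ) ^ 2 ≤
      48 * (Z.card : ℝ) * SD D (Q.powersetCard k) (fun _ => 1) := by
  set S := Q.powersetCard k with hS
  set S' := P.powersetCard k with hS'
  have hsub : S' ⊆ S := Finset.powersetCard_mono hPQ
  have hSp : ∀ s ∈ S, ∀ p ∈ s, p.Prime ∧ p ≠ 2 := fun s hs p hp =>
    hQ p ((mem_powersetCard.1 hs).1 hp)
  set A : Finset ℕ → Ideal (𝓞 K) := fun s =>
    ((∏ p ∈ s, I p : nonZeroDivisors (Ideal (𝓞 K))) : Ideal (𝓞 K)) with hA
  have hA0 : ∀ s, A s ≠ ⊥ := fun s => nonZeroDivisors.coe_ne_zero _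
  have hAn : ∀ s ∈ S', Ideal.absNorm (A s) = prodS s := by
    intro s hs
    rw [hA]
    simp only
    rw [Submonoid.coe_finsetProd, map_prod]
    unfold prodS
    exact Finset.prod_congr rfl fun p hp => hI p ((mem_powersetCard.1 hs).1 hp)
  -- the choice of the cell
  have hch : ∀ s : Finset ℕ, ∃ (z : Ideal (𝓞 K)) (x : K), s ∈ S' → z ∈ Z ∧ x ≠ 0 ∧
      FractionalIdeal.spanSingleton (nonZeroDivisors (𝓞 K)) x *
        (z : FractionalIdeal (nonZeroDivisors (𝓞 K)) K) = A s ∧
      |Real.log (|e.σ x / e.τ x|)| ≤ 1 := by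
    intro s
    by_cases hs : s ∈ S'
    · obtain ⟨z, hz, x, hx0, hx1, hx2⟩ := hZ s hs
      exact ⟨z, x, fun _ => ⟨hz, hx0, hx1, hx2⟩⟩
    · exact ⟨⊥, 0, fun h => absurd h hs⟩
  choose z x hzx using hch
  set L : Finset ℕ → Ideal (𝓞 K) × (Bool × Bool × ℤ) := fun s =>
    (z s, lab (e.σ (x s)) (e.τ (x s))) with hL
  set T : Finset (Ideal (𝓞 K) × (Bool × Bool × ℤ)) :=
    Z ×ˢ ((Finset.univ : Finset Bool) ×ˢ (Finset.univ : Finset Bool) ×ˢ
      (Finset.Icc (-4 : ℤ) 4)) with hT
  have hLT : ∀ s ∈ S', L s ∈ T := by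
    intro s hs
    obtain ⟨g1, g2, g3, g4⟩ := hzx s hs
    rw [hT, Finset.mem_product]
    exact ⟨g1, lab_mem g4⟩
  have hTcard : (T.card : ℝ) = 36 * Z.card := by
    rw [hT, Finset.card_product, Finset.card_product, Finset.card_product]
    simp only [Finset.card_univ, Fintype.card_bool, Int.card_Icc]
    push_cast
    norm_num
    ring
  have hinj : ∀ (f : K →+* ℝ) (y : K), y ≠ 0 → f y ≠ 0 := fun f y hy =>
    (map_ne_zero f).2 hy
  -- equal labels give a large kernel
  have hpair : ∀ s ∈ S', ∀ t ∈ S', L s = L t → (3 / 4 : ℝ) ≤ KAB e (A s) (A t) := by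
    intro s hs t ht hst
    obtain ⟨g1, g2, g3, g4⟩ := hzx s hs
    obtain ⟨f1, f2, f3, f4⟩ := hzx t ht
    rw [hL] at hst
    simp only [Prod.mk.injEq] at hst
    obtain ⟨hz, hl⟩ := hst
    obtain ⟨k1, k2, k3⟩ := lab_eq (hinj _ _ g2) (hinj _ _ g2) (hinj _ _ f2) (hinj _ _ f2) hl
    refine KAB_ge hKF K D hD h2 hK e _ _ (hA0 s) (hA0 t) (x t / x s) ⟨?_, ?_, ?_⟩ ?_
    · rw [map_div₀]; exact k1
    · rw [map_div₀]; exact k2
    · rw [← g3, ← f3, ← mul_assoc, FractionalIdeal.spanSingleton_mul_spanSingleton,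
        div_mul_cancel₀ _ g2, hz]
    · rw [map_div₀, map_div₀]; exact k3
  -- the number of pairs
  have hm : (P.card.choose k : ℝ) = (S'.card : ℝ) := by
    rw [hS', Finset.card_powersetCard]
  have hcs : (S'.card : ℝ) ^ 2 ≤ (T.card : ℝ) *
      ∑ l ∈ T, ((S'.filter (fun s => L s = l)).card : ℝ) ^ 2 := by
    have h1 : (S'.card : ℝ) = ∑ l ∈ T, ((S'.filter (fun s => L s = l)).card : ℝ) := by
      have h3 : S'.card = ∑ l ∈ T, (S'.filter (fun s => L s = l)).card :=
        Finset.card_eq_sum_card_fiberwise fun s hs => hLT s hs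
      rw [h3]
      push_cast
      rfl
    rw [h1]
    exact sq_sum_le_card_mul_sum_sq
  have hpairs : ∑ l ∈ T, ((S'.filter (fun s => L s = l)).card : ℝ) ^ 2 =
      ∑ s ∈ S', ∑ t ∈ S', if L s = L t then (1 : ℝ) else 0 := by
    have h1 : ∀ l, ((S'.filter (fun s => L s = l)).card : ℝ) ^ 2 =
        ∑ s ∈ S', ∑ t ∈ S', if L s = l ∧ L t = l then (1 : ℝ) else 0 := by
      intro l
      rw [pow_two, Finset.card_filter]
      push_cast
      rw [Finset.sum_mul_sum]
      refine Finset.sum_congr rfl fun s _ => Finset.sum_congr rfl fun t _ => ?_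
      by_cases a1 : L s = l <;> by_cases a2 : L t = l <;> simp [a1, a2]
    rw [Finset.sum_congr rfl fun l _ => h1 l, Finset.sum_comm]
    refine Finset.sum_congr rfl fun s hs => ?_
    rw [Finset.sum_comm]
    refine Finset.sum_congr rfl fun t _ => ?_
    rw [Finset.sum_eq_single (L s)]
    · by_cases h : L s = L t
      · simp [h]
      · have : L t ≠ L s := fun h' => h h'.symm
        simp [h, this]
    · intro l _ hl
      rw [if_neg]
      rintro ⟨h, -⟩
      exact hl h.symm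
    · intro h
      exact absurd (hLT s hs) h
  have hker : ∀ s ∈ S', ∀ t ∈ S', (if L s = L t then (1 : ℝ) else 0) ≤
      4 / 3 * (2 ^ ((s ∩ t).card) * Rsum D (prodS s * prodS t)) := by
    intro s hs t ht
    split_ifs with h
    · have h1 := hpair s hs t ht h
      have h3 := hN6 K D hD h2 hK e s t (hSp s (hsub hs)) (hSp t (hsub ht)) {A s} {A t}
        (by intro B hB; rw [Finset.mem_singleton.1 hB]; exact hAn s hs)
        (by intro B hB; rw [Finset.mem_singleton.1 hB]; exact hAn t ht)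
      rw [Finset.sum_singleton, Finset.sum_singleton] at h3
      linarith
    · have := Rsum_nonneg D (prodS s * prodS t)
      positivity
  have hSD : ∑ s ∈ S', ∑ t ∈ S', (if L s = L t then (1 : ℝ) else 0) ≤
      4 / 3 * SD D S (fun _ => 1) := by
    unfold SD
    rw [Finset.mul_sum]
    refine le_trans (Finset.sum_le_sum fun s hs => Finset.sum_le_sum fun t ht => hker s hs t ht) ?_
    refine le_trans ?_ (Finset.sum_le_sum_of_subset_of_nonneg hsub ?_)
    · refine Finset.sum_le_sum fun s _ => ?_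
      rw [← Finset.mul_sum]
      refine mul_le_mul_of_nonneg_left ?_ (by norm_num)
      refine le_trans (Finset.sum_le_sum_of_subset_of_nonneg hsub ?_) (le_of_eq ?_)
      · intro t _ _
        have := Rsum_nonneg D (prodS s * prodS t)
        positivity
      · refine Finset.sum_congr rfl fun t _ => ?_
        ring
    · intro s _ _
      refine mul_nonneg (by norm_num) (Finset.sum_nonneg fun t _ => ?_)
      have := Rsum_nonneg D (prodS s * prodS t)
      positivity
  rw [hm]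
  calc (S'.card : ℝ) ^ 2 ≤ (T.card : ℝ) *
      ∑ l ∈ T, ((S'.filter (fun s => L s = l)).card : ℝ) ^ 2 := hcs
    _ = (36 * Z.card) * ∑ s ∈ S', ∑ t ∈ S', (if L s = L t then (1 : ℝ) else 0) := by
        rw [hTcard, hpairs]
    _ ≤ (36 * Z.card) * (4 / 3 * SD D S (fun _ => 1)) :=
        mul_le_mul_of_nonneg_left hSD (by positivity)
    _ = _ := by ring

end Pool.Agent.W24.AR
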