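import Pool.Agent.W24.AR.Cells

/-!
# Arbitrary sets of small prime ideals in the Arakelov class group
-/

set_option autoImplicit false

namespace Pool.Agent.W24.AR

open Finset Filter NumberField Pool.Agent.H38R2.CG Pool.Agent.H38R2.CG2 Pool.Agent.H38R2.CG3
open Pool.Agent.W24.NC
open Pool.Agent.R345.IX (high_card SD_nonneg Lone_le Dof isFund_Dof dyadic Qz_two floor_two)
open scoped Classical

/-- a quadratic field has at most two real embeddings -/
theorem emb_two {K : Type} [Field K] [NumberField K] (h2 : Module.finrank ℚ K = 2)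
    (σ τ ρ : K →+* ℝ) (h : σ ≠ τ) : ρ = σ ∨ ρ = τ := by
  by_contra hcon
  push Not at hcon
  have hinj : ∀ f g : K →+* ℝ, (Complex.ofRealHom).comp f = (Complex.ofRealHom).comp g → f = g := by
    intro f g hfg
    ext x
    have h1 := congrArg (fun φ : K →+* ℂ => φ x) hfg
    simpa using h1
  have hcard : Fintype.card (K →+* ℂ) = 2 := by
    rw [NumberField.Embeddings.card K ℂ, h2]
  have h3 : ({(Complex.ofRealHom).comp σ, (Complex.ofRealHom).comp τ,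
      (Complex.ofRealHom).comp ρ} : Finset (K →+* ℂ)).card = 3 := by
    rw [Finset.card_eq_three]
    refine ⟨_, _, _, ?_, ?_, ?_, rfl⟩
    · exact fun h4 => h (hinj _ _ h4)
    · exact fun h4 => hcon.1 (hinj _ _ h4).symm
    · exact fun h4 => hcon.2 (hinj _ _ h4).symm
  have h4 := Finset.card_le_univ ({(Complex.ofRealHom).comp σ, (Complex.ofRealHom).comp τ,
      (Complex.ofRealHom).comp ρ} : Finset (K →+* ℂ))
  rw [h3, hcard] at h4
  omega

/-- `A = x z` for an element `x ≠ 0` with `|log |σ x / τ x|| ≤ 1`. -/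
def Close {K : Type} [Field K] [NumberField K] (σ τ : K →+* ℝ) (z A : Ideal (𝓞 K)) : Prop :=
  ∃ x : K, x ≠ 0 ∧ FractionalIdeal.spanSingleton (nonZeroDivisors (𝓞 K)) x *
    (z : FractionalIdeal (nonZeroDivisors (𝓞 K)) K) = A ∧ |Real.log (|σ x / τ x|)| ≤ 1

theorem Close.swap {K : Type} [Field K] [NumberField K] {σ τ : K →+* ℝ} {z A : Ideal (𝓞 K)}
    (h : Close σ τ z A) : Close τ σ z A := by
  obtain ⟨x, h1, h2, h3⟩ := h
  refine ⟨x, h1, h2, ?_⟩
  have h4 : |τ x / σ x| = (|σ x / τ x|)⁻¹ := by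
    rw [← abs_inv, inv_div]
  rw [h4, Real.log_inv, abs_neg]
  exact h3

/-- every product of at most `n` members of `W` is close to a member of `Z` -/
def Cov {K : Type} [Field K] [NumberField K] (σ τ : K →+* ℝ)
    (W : Set (nonZeroDivisors (Ideal (𝓞 K)))) (n : ℝ) (Z : Finset (Ideal (𝓞 K))) : Prop :=
  ∀ L : Multiset (nonZeroDivisors (Ideal (𝓞 K))), (∀ P ∈ L, P ∈ W) → (L.card : ℝ) ≤ n →
    ∃ z ∈ Z, Close σ τ z ((L.prod : nonZeroDivisors (Ideal (𝓞 K))) : Ideal (𝓞 K))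

/-- the exceptional discriminants -/
def BadA (a e : ℝ) (X D : ℕ) : Prop := ∃ (K : Type) (_ : Field K) (_ : NumberField K),
  Module.finrank ℚ K = 2 ∧ NumberField.discr K = (D : ℤ) ∧ ∃ (σ τ : K →+* ℝ), σ ≠ τ ∧
    ∃ c : ℝ, 1 / 2 + 1 / (2 * a) ≤ c ∧
    c ≤ 1 ∧ ∃ W : Set (nonZeroDivisors (Ideal (𝓞 K))),
      (∀ J ∈ W, (J : Ideal (𝓞 K)).IsPrime ∧
        ((Ideal.absNorm (J : Ideal (𝓞 K)) : ℕ) : ℝ) ≤ (2 * Real.log X) ^ a) ∧
      (Real.log X / 2) ^ (a * c) ≤ (W.ncard : ℝ) ∧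
      ∃ Z : Finset (Ideal (𝓞 K)), Cov σ τ W (kk a (kap a) X) Z ∧
      ¬ ((X : ℝ) ^ (1 / 2 - EE a c - e) ≤ (Z.card : ℝ))

/-- the deterministic part -/
theorem not_bad (hN0 : P_N0) (hN2 : P_N2) (hKF : P_KF)
    (hN6 : P_N6) (a η : ℝ) (ha : 1 < a)
    (hη : 0 < η) (X D : ℕ) (hD : IsFund D)
    (hX : 1 ≤ X) (hL1 : 2 ≤ Real.log X)
    (hA : (12 * 2 ^ a : ℝ) ^ (kk a (kap a) X) ≤ (X : ℝ) ^ η)
    (hy : (yy a X : ℝ) ^ kk a (kap a) X ≤ (X : ℝ) ^ kap a)
    (hlow : (X : ℝ) ^ (kap a / a - η) ≤ (Real.log X) ^ kk a (kap a) X)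
    (hup : (Real.log X) ^ kk a (kap a) X ≤ (X : ℝ) ^ (kap a / a))
    (hkL : (kk a (kap a) X : ℝ) ≤ Real.log X)
    (hs1 : 6 * (1 + (2 * Real.log X) ^ (a / 2)) ≤ (Real.log X / 2) ^ (a / 2 + 1 / 2))
    (hs2 : 12 * Real.log X ≤ (Real.log X / 2) ^ (a / 2 + 1 / 2))
    (h96 : 96 ≤ (X : ℝ) ^ η)
    (hhigh : SD D ((QQ a X).powersetCard (kk a (kap a) X)) (fun _ => 1) ≤ (X : ℝ) ^ (4 * η) *
      (((QQ a X).card.choose (kk a (kap a) X) : ℝ) +
        ((QQ a X).card.choose (kk a (kap a) X) : ℝ) ^ 2 / √(X : ℝ))) :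
    ¬ BadA a ((2 * a + 8) * η) X D := by
  rintro ⟨K, i1, i2, h2, hK, σ, τ, hστ, c, hc1, hc2, W, hW, hWc, Z, hcov, hne⟩
  apply hne
  have ha0 : 0 < a := by linarith
  have hXr : (1 : ℝ) ≤ X := by exact_mod_cast hX
  have hX0 : (0 : ℝ) < X := by linarith
  have hsX : 0 < √(X : ℝ) := Real.sqrt_pos.2 hX0
  set L : ℝ := Real.log X with hL
  have hL0 : 0 < L := by linarith
  set κ := kap a with hκ
  have hκ0 : 0 < κ := kap_pos a
  have hκ1 : κ ≤ 1 := kap_le a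
  set y := yy a X with hydef
  set k := kk a κ X with hk
  set Q := QQ a X with hQdef
  have hQ : ∀ p ∈ Q, p.Prime ∧ p ≠ 2 := by
    intro p hp
    rw [hQdef] at hp
    exact (Finset.mem_filter.1 hp).2
  obtain ⟨P, hP1, hP2⟩ := below hN2 K D hD h2 hK W ((2 * L) ^ a) hW
  have hPQ : P ⊆ Q := by
    intro p hp
    obtain ⟨g1, g2, g3, -⟩ := hP1 p hp
    rw [hQdef]
    unfold QQ
    rw [Finset.mem_filter, Finset.mem_Icc]
    exact ⟨⟨g1.one_lt.le, Nat.le_floor g3⟩, g1, g2⟩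
  -- the number of primes
  have hLh : 1 ≤ L / 2 := by linarith
  have hac : a / 2 + 1 / 2 ≤ a * c := by
    have h1 : a * (1 / 2 + 1 / (2 * a)) ≤ a * c := mul_le_mul_of_nonneg_left hc1 ha0.le
    have h3 : a * (1 / 2 + 1 / (2 * a)) = a / 2 + 1 / 2 := by field_simp
    linarith
  have hpow1 : (L / 2) ^ (a / 2 + 1 / 2) ≤ (L / 2) ^ (a * c) :=
    Real.rpow_le_rpow_of_exponent_le hLh hac
  have hsq : √((2 * L) ^ a) = (2 * L) ^ (a / 2) := by
    rw [Real.sqrt_eq_rpow, ← Real.rpow_mul (by positivity)]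
    congr 1
    ring
  have hPc : (L / 2) ^ (a * c) / 6 ≤ P.card := by
    rw [hsq] at hP2
    linarith
  have h2k : 2 * k ≤ P.card := by
    have h1 : (2 : ℝ) * k ≤ P.card := by linarith
    exact_mod_cast h1
  -- choosing the ideals
  have hch : ∀ p : ℕ, ∃ J : nonZeroDivisors (Ideal (𝓞 K)), p ∈ P →
      J ∈ W ∧ Ideal.absNorm (J : Ideal (𝓞 K)) = p := by
    intro p
    by_cases hp : p ∈ P
    · obtain ⟨-, -, -, J, hJ, hJp⟩ := hP1 p hp
      exact ⟨J, fun _ => ⟨hJ, hJp⟩⟩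
    · exact ⟨1, fun h => absurd h hp⟩
  choose I hI using hch
  obtain ⟨em⟩ := hN0 K D hD h2 hK
  have hcov' : Cov em.σ em.τ W (kk a κ X) Z := by
    have hne' : em.σ ≠ em.τ := em.ne
    rcases emb_two h2 em.σ em.τ σ hne' with h3 | h3
    · rcases emb_two h2 em.σ em.τ τ hne' with h4 | h4
      · exact absurd (h3.trans h4.symm) hστ
      · rw [← h3, ← h4]; exact hcov
    · rcases emb_two h2 em.σ em.τ τ hne' with h4 | h4
      · intro L hL1 hL2
        obtain ⟨z, hz, hz'⟩ := hcov L hL1 hL2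
        refine ⟨z, hz, ?_⟩
        rw [← h3, ← h4]
        exact hz'.swap
      · exact absurd (h3.trans h4.symm) hστ
  have hR := cells hKF hN6 K D hD h2 hK em Q P hQ hPQ k I
    (fun p hp => (hI p hp).2) Z (by
      intro s hs
      obtain ⟨g1, g2⟩ := Finset.mem_powersetCard.1 hs
      obtain ⟨z, hz, x, hx⟩ := hcov' (s.val.map I) (by
        intro J hJ
        obtain ⟨p, hp, rfl⟩ := Multiset.mem_map.1 hJ
        exact (hI p (g1 (by simpa using hp))).1) (by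
        rw [Multiset.card_map, Finset.card_val, g2])
      exact ⟨z, hz, x, hx⟩)
  have hQy : (Q.card : ℝ) ≤ y := by
    have h1 : Q.card ≤ y := by
      rw [hQdef]
      unfold QQ
      refine (Finset.card_filter_le _ _).trans ?_
      rw [Nat.card_Icc]
      omega
    exact_mod_cast h1
  obtain ⟨hr1, hr2⟩ := choose_ratio Q.card P.card k y hQy h2k
  set M : ℝ := (Q.card.choose k : ℝ) with hM
  set m : ℝ := (P.card.choose k : ℝ) with hm
  have hm0 : 0 < m := by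
    rw [hm]
    exact_mod_cast Nat.choose_pos (by omega)
  have hM0 : 0 ≤ M := Nat.cast_nonneg _
  set U : ℝ := (X : ℝ) ^ (κ * c - (a + 1) * η) with hU
  have hU0 : 0 < U := Real.rpow_pos_of_pos hX0 _
  have hc0 : 0 ≤ c := by
    have : 0 < 1 / (2 * a) := by positivity
    linarith
  have hUle : U ≤ ((P.card : ℝ) / 2) ^ k := by
    have h1 : (L / 2) ^ (a * c) / 12 ≤ (P.card : ℝ) / 2 := by linarith
    have h3 : ((L / 2) ^ (a * c) / 12) ^ k ≤ ((P.card : ℝ) / 2) ^ k :=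
      pow_le_pow_left₀ (by positivity) h1 k
    refine le_trans ?_ h3
    have h5 : (L ^ (a * c) / (12 * 2 ^ a)) ^ k ≤ ((L / 2) ^ (a * c) / 12) ^ k := by
      apply pow_le_pow_left₀ (by positivity)
      rw [Real.div_rpow hL0.le (by norm_num), div_div]
      apply div_le_div_of_nonneg_left (by positivity) (by positivity)
      have h6 : (2 : ℝ) ^ (a * c) ≤ 2 ^ a :=
        Real.rpow_le_rpow_of_exponent_le (by norm_num) (by nlinarith)
      nlinarith
    refine le_trans ?_ h5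
    rw [div_pow, le_div_iff₀ (by positivity)]
    have h6 : (L ^ (a * c)) ^ k = (L ^ k) ^ (a * c) := by
      rw [← Real.rpow_natCast (L ^ (a * c)) k, ← Real.rpow_mul hL0.le,
        ← Real.rpow_natCast L k, ← Real.rpow_mul hL0.le]
      congr 1
      ring
    rw [h6]
    calc U * (12 * 2 ^ a) ^ k ≤ U * (X : ℝ) ^ η := by gcongr
      _ = (X : ℝ) ^ (κ * c - (a + 1) * η + η) := by rw [hU, ← Real.rpow_add hX0]
      _ ≤ (X : ℝ) ^ ((κ / a - η) * (a * c)) := by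
        apply Real.rpow_le_rpow_of_exponent_le hXr
        have h7 : (κ / a - η) * (a * c) = κ * c - a * c * η := by field_simp
        rw [h7]
        have h8 : a * c * η ≤ a * 1 * η := by gcongr
        linarith
      _ = ((X : ℝ) ^ (κ / a - η)) ^ (a * c) := by rw [Real.rpow_mul hX0.le]
      _ ≤ (L ^ k) ^ (a * c) := by
        apply Real.rpow_le_rpow (by positivity) hlow (by positivity)
  -- comparison of the binomial coefficients
  set u : ℝ := (X : ℝ) ^ (κ - (κ * c - (a + 1) * η)) with hu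
  set v : ℝ := (X : ℝ) ^ (κ / a - (κ * c - (a + 1) * η)) with hv
  have hu0 : 0 < u := Real.rpow_pos_of_pos hX0 _
  have hv0 : 0 < v := Real.rpow_pos_of_pos hX0 _
  have hMu : M ≤ u * m := by
    have h1 : M * U ≤ (X : ℝ) ^ κ * m := by
      calc M * U ≤ M * ((P.card : ℝ) / 2) ^ k := by gcongr
        _ ≤ (y : ℝ) ^ k * m := hr1
        _ ≤ _ := by gcongr
    have h3 : u * m = (X : ℝ) ^ κ * m / U := by
      rw [hu, hU, Real.rpow_sub hX0 κ]
      ring
    rw [h3, le_div_iff₀ hU0]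
    exact h1
  have hvm : 1 ≤ v * m := by
    have h1 : U ≤ (X : ℝ) ^ (κ / a) * m := by
      calc U ≤ ((P.card : ℝ) / 2) ^ k := hUle
        _ ≤ (k : ℝ) ^ k * m := hr2
        _ ≤ L ^ k * m := by gcongr
        _ ≤ _ := by gcongr
    have h3 : v * m = (X : ℝ) ^ (κ / a) * m / U := by
      rw [hv, hU, Real.rpow_sub hX0 (κ / a)]
      ring
    rw [h3, le_div_iff₀ hU0, one_mul]
    exact h1
  set sd := SD D (Q.powersetCard k) (fun _ => 1) with hsd
  have hsd0 : 0 ≤ sd := SD_nonneg D _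
  have hXη : 0 < (X : ℝ) ^ η := Real.rpow_pos_of_pos hX0 _
  have hX4η : 0 < (X : ℝ) ^ (4 * η) := Real.rpow_pos_of_pos hX0 _
  have hMM : M + M ^ 2 / √(X : ℝ) ≤ (u * v + u ^ 2 / √(X : ℝ)) * m ^ 2 := by
    have h1 : M ≤ (u * v) * m ^ 2 := by
      calc M ≤ u * m := hMu
        _ = (u * m) * 1 := by ring
        _ ≤ (u * m) * (v * m) := by gcongr
        _ = _ := by ring
    have h3 : M ^ 2 / √(X : ℝ) ≤ (u * m) ^ 2 / √(X : ℝ) := by gcongr
    calc M + M ^ 2 / √(X : ℝ) ≤ (u * v) * m ^ 2 + (u * m) ^ 2 / √(X : ℝ) := add_le_add h1 h3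
      _ = _ := by ring
  set R : ℝ := (Z.card : ℝ) with hRdef
  have hR0 : 0 ≤ R := Nat.cast_nonneg _
  have h1 : 1 * m ^ 2 ≤ (48 * R * ((X : ℝ) ^ (4 * η) * (u * v + u ^ 2 / √(X : ℝ)))) * m ^ 2 := by
    calc 1 * m ^ 2 ≤ 48 * R * sd := by rw [one_mul]; exact hR
      _ ≤ 48 * R * ((X : ℝ) ^ (4 * η) * (M + M ^ 2 / √(X : ℝ))) := by gcongr
      _ ≤ 48 * R * ((X : ℝ) ^ (4 * η) * ((u * v + u ^ 2 / √(X : ℝ)) * m ^ 2)) := by gcongr
      _ = _ := by ring
  have h3 : 1 ≤ 48 * R * ((X : ℝ) ^ (4 * η) * (u * v + u ^ 2 / √(X : ℝ))) :=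
    le_of_mul_le_mul_right h1 (by positivity)
  have hE1 : √(X : ℝ) * (u * v) ≤ (X : ℝ) ^ (EE a c + 2 * (a + 1) * η) := by
    rw [Real.sqrt_eq_rpow, hu, hv, ← Real.rpow_add hX0, ← Real.rpow_add hX0]
    apply Real.rpow_le_rpow_of_exponent_le hXr
    have := exp1 a c ha
    rw [← hκ] at this
    linarith
  have hE2 : u ^ 2 ≤ (X : ℝ) ^ (EE a c + 2 * (a + 1) * η) := by
    rw [hu, ← Real.rpow_natCast, ← Real.rpow_mul hX0.le]
    apply Real.rpow_le_rpow_of_exponent_le hXr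
    have := exp2 a c ha hc2
    rw [← hκ] at this
    push_cast
    linarith
  have h5 : √(X : ℝ) ≤ R * (X : ℝ) ^ (EE a c + (2 * a + 8) * η) := by
    calc √(X : ℝ) = √(X : ℝ) * 1 := (mul_one _).symm
      _ ≤ √(X : ℝ) * (48 * R * ((X : ℝ) ^ (4 * η) * (u * v + u ^ 2 / √(X : ℝ)))) := by gcongr
      _ = 48 * R * ((X : ℝ) ^ (4 * η) * (√(X : ℝ) * (u * v) + u ^ 2)) := by
        field_simp
      _ ≤ 48 * R * ((X : ℝ) ^ (4 * η) * ((X : ℝ) ^ (EE a c + 2 * (a + 1) * η) +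
        (X : ℝ) ^ (EE a c + 2 * (a + 1) * η))) := by gcongr
      _ = 96 * R * ((X : ℝ) ^ (4 * η) * (X : ℝ) ^ (EE a c + 2 * (a + 1) * η)) := by ring
      _ ≤ (X : ℝ) ^ η * R * ((X : ℝ) ^ (4 * η) * (X : ℝ) ^ (EE a c + 2 * (a + 1) * η)) := by
        gcongr
      _ = R * (X : ℝ) ^ (η + (4 * η + (EE a c + 2 * (a + 1) * η))) := by
        rw [Real.rpow_add hX0 η, Real.rpow_add hX0 (4 * η)]
        ring
      _ ≤ R * (X : ℝ) ^ (EE a c + (2 * a + 8) * η) := by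
        apply mul_le_mul_of_nonneg_left _ hR0
        apply Real.rpow_le_rpow_of_exponent_le hXr
        nlinarith
  have h6 : (X : ℝ) ^ (1 / 2 - EE a c - (2 * a + 8) * η) =
      √(X : ℝ) / (X : ℝ) ^ (EE a c + (2 * a + 8) * η) := by
    rw [Real.sqrt_eq_rpow, ← Real.rpow_sub hX0]
    congr 1
    ring
  rw [h6, div_le_iff₀ (Real.rpow_pos_of_pos hX0 _)]
  exact h5

end Pool.Agent.W24.AR
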