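import Pool.Agent.W24.AR.Fin

/-!
# Arbitrary sets of small prime ideals in the Arakelov class group: the theorem
-/

set_option autoImplicit false

namespace Pool.Agent.W24.AR

open Finset Filter NumberField Pool.Agent.H38R2.CG Pool.Agent.H38R2.CG2 Pool.Agent.H38R2.CG3
open Pool.Agent.W24.NC
open Pool.Agent.R345.IX (high_card SD_nonneg Lone_le Dof isFund_Dof dyadic Qz_two floor_two)
open scoped Classical

/-- few exceptional discriminants in a dyadic interval -/
theorem count_bad (hN0 : P_N0) (hN2 : P_N2) (hKF : P_KF)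
    (hN6 : P_N6) (a : ℝ) (ha : 1 < a) (ε : ℝ)
    (hε : 0 < ε) : ∃ δ : ℝ, 0 < δ ∧ δ ≤ 1 / 2 ∧ ∃ X0 : ℕ, ∀ X ≥ X0,
    (((Finset.Ioc X (2 * X)).filter (fun D => IsFund D ∧ BadA a ε X D)).card : ℝ) ≤
      (X : ℝ) ^ (1 - δ) := by
  have ha0 : 0 < a := by linarith
  set η : ℝ := min (ε / (2 * a + 8)) (1 / 8) with hη
  have hηpos : 0 < η := lt_min (by positivity) (by norm_num)
  have hη1 : (2 * a + 8) * η ≤ ε := by
    have : η ≤ ε / (2 * a + 8) := min_le_left _ _
    rw [le_div_iff₀ (by linarith)] at this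
    linarith
  have hη2 : η ≤ 1 / 8 := min_le_right _ _
  refine ⟨η, hηpos, by linarith, ?_⟩
  rw [← Filter.eventually_atTop]
  have hpar := params a (kap a) η (12 * 2 ^ a) ha (kap_pos a) (kap_le a) hηpos (by
    have : (1 : ℝ) ≤ 2 ^ a := Real.one_le_rpow (by norm_num) ha0.le
    linarith) 1
  have hlog1 := ERRh.ev_log (η / 2) (by positivity)
  have hc1 := ERRh.ev_const (η / 2) (by positivity) 4096
  have hc2 := ERRh.ev_const (η / 2) (by positivity) 96
  have hs := ev_log _ (ev_pow (a / 2) (a / 2 + 1 / 2) (1 / 2) 6 (by linarith) (by norm_num) (by norm_num)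
    (by linarith))
  have hs' := ev_log _ (ev_pow 1 (a / 2 + 1 / 2) (1 / 2) 6 (by norm_num) (by norm_num) (by norm_num)
    (by linarith))
  have h2L := ev_log _ (eventually_ge_atTop (2 : ℝ))
  filter_upwards [hpar, hlog1, hc1, hc2, hs, hs', h2L, eventually_ge_atTop 1] with X hX hl1 hk1 hk2
    hs1 hs2 hL2 hX1
  obtain ⟨-, q1, q2, q3, q4, q5, q6, q7, q8, q9, q10⟩ := hX
  have hXr : (1 : ℝ) ≤ X := by exact_mod_cast hX1
  have hX0 : (0 : ℝ) < X := by linarith
  set L : ℝ := Real.log X with hL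
  have hL0 : 0 < L := by linarith
  set k := kk a (kap a) X with hk
  set Q := QQ a X with hQ
  have hhalf : (X : ℝ) ^ (η / 2) * (X : ℝ) ^ (η / 2) = (X : ℝ) ^ η := by
    rw [← Real.rpow_add hX0]; congr 1; ring
  have hXh : 0 < (X : ℝ) ^ (η / 2) := Real.rpow_pos_of_pos hX0 _
  have hXh1 : 1 ≤ (X : ℝ) ^ (η / 2) := Real.one_le_rpow hXr (by positivity)
  let High : ℕ → Finset ℕ := fun r => (DD 2 r X 1).filter
    (fun D : ℕ => (X : ℝ) ^ (4 * η) * (((Q.powersetCard k).card : ℝ) +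
      ((Q.powersetCard k).card : ℝ) ^ 2 / √(X : ℝ)) < SD D (Q.powersetCard k) (fun _ => 1))
  have h2a : (1 : ℝ) ≤ 2 ^ a := Real.one_le_rpow (by norm_num) ha0.le
  -- cardinality of High
  have hHigh : ∀ r < Qz 2, ((High r).card : ℝ) ≤ (X : ℝ) ^ (1 - 2 * η) := by
    intro r hr
    rcases Nat.eq_zero_or_pos (Q.powersetCard k).card with h0 | h0
    · have hemp : High r = ∅ := by
        apply Finset.filter_eq_empty_iff.2
        intro D _
        rw [Finset.card_eq_zero] at h0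
        have hSD : SD D (Q.powersetCard k) (fun _ => 1) = 0 := by
          unfold SD
          rw [h0]
          simp
        rw [hSD, h0]
        simp
      rw [hemp]
      simp only [Finset.card_empty, Nat.cast_zero]
      positivity
    have hS : ∀ s ∈ Q.powersetCard k, (∀ p ∈ s, p.Prime) ∧ s.card = k ∧ prodS s ≤ X := by
      intro s hs
      obtain ⟨hs1, hs2⟩ := Finset.mem_powersetCard.1 hs
      have hQm : ∀ p ∈ Q, p.Prime ∧ p ≤ yy a X := by
        intro p hp
        rw [hQ] at hp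
        unfold QQ at hp
        rw [Finset.mem_filter, Finset.mem_Icc] at hp
        exact ⟨hp.2.1, hp.1.2⟩
      refine ⟨fun p hp => (hQm p (hs1 hp)).1, hs2, ?_⟩
      have h1 : prodS s ≤ (yy a X) ^ k := by
        unfold prodS
        rw [← hs2]
        exact Finset.prod_le_pow_card _ _ _ fun p hp => (hQm p (hs1 hp)).2
      have h2 : (((yy a X) ^ k : ℕ) : ℝ) ≤ X := by
        push_cast
        refine q5.trans ?_
        calc (X : ℝ) ^ kap a ≤ (X : ℝ) ^ (1 : ℝ) :=
              Real.rpow_le_rpow_of_exponent_le hXr (kap_le a)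
          _ = X := Real.rpow_one _
      have h3 : (yy a X) ^ k ≤ X := by exact_mod_cast h2
      exact h1.trans h3
    have h1 := high_card r X k hr hX1 (Q.powersetCard k) hS ((X : ℝ) ^ (4 * η))
      (Real.rpow_pos_of_pos hX0 _) h0
    refine h1.trans ?_
    rw [div_le_iff₀ (Real.rpow_pos_of_pos hX0 _), ← Real.rpow_add hX0]
    have h8 : (8 : ℝ) ^ k ≤ (X : ℝ) ^ η :=
      (pow_le_pow_left₀ (by norm_num) (by linarith) _).trans q6
    calc 4096 * 8 ^ k * (1 + Real.log X) * X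
        ≤ (X : ℝ) ^ (η / 2) * (X : ℝ) ^ η * (X : ℝ) ^ (η / 2) * X := by gcongr
      _ = (X : ℝ) ^ (η / 2 + η + η / 2 + 1) := by
          rw [Real.rpow_add hX0 _ 1, Real.rpow_one, Real.rpow_add hX0, Real.rpow_add hX0]
      _ ≤ _ := Real.rpow_le_rpow_of_exponent_le hXr (by linarith)
  -- covering
  have hcover : ((Finset.Ioc X (2 * X)).filter (fun D => IsFund D ∧ BadA a ε X D)) ⊆
      (Finset.range 16).biUnion (fun r => High r) := by
    intro D hD
    obtain ⟨hD1, hD2, hD3⟩ := Finset.mem_filter.1 hD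
    obtain ⟨hDa, hDb⟩ := Finset.mem_Ioc.1 hD1
    rw [Finset.mem_biUnion]
    refine ⟨D % 16, Finset.mem_range.2 (Nat.mod_lt _ (by norm_num)), ?_⟩
    have hDD : D ∈ DD 2 (D % 16) X 1 := by
      unfold DD
      rw [Finset.mem_filter, Finset.mem_Ioc, floor_two, Qz_two]
      exact ⟨⟨hDa, hDb⟩, rfl⟩
    by_contra hcon
    have hhigh' : SD D (Q.powersetCard k) (fun _ => 1) ≤ (X : ℝ) ^ (4 * η) *
        (((Q.powersetCard k).card : ℝ) + ((Q.powersetCard k).card : ℝ) ^ 2 / √(X : ℝ)) := by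
      by_contra h
      exact hcon (Finset.mem_filter.2 ⟨hDD, not_le.1 h⟩)
    rw [Finset.card_powersetCard] at hhigh'
    have hkL : (k : ℝ) ≤ L := by
      refine q10.trans ?_
      apply div_le_self hL0.le
      nlinarith
    have hnb := not_bad hN0 hN2 hKF hN6 a η ha hηpos X D hD2 hX1 hL2
      q6 q5 q7 q8 hkL (by
        have := hs1
        rw [one_div_mul_eq_div] at this
        exact this) (by
        have := hs2
        rw [Real.rpow_one, one_div_mul_eq_div] at this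
        linarith) (by nlinarith) hhigh'
    apply hnb
    obtain ⟨K, i1, i2, g1, g2, σ, τ, g0, c, g3, g4, W, g5, g6, Z, g8, g7⟩ := hD3
    refine ⟨K, i1, i2, g1, g2, σ, τ, g0, c, g3, g4, W, g5, g6, Z, g8,
      fun hcon => g7 (le_trans ?_ hcon)⟩
    exact Real.rpow_le_rpow_of_exponent_le hXr (by linarith)
  have hfin : ((((Finset.range 16).biUnion (fun r => High r)).card : ℕ) : ℝ) ≤
      16 * (X : ℝ) ^ (1 - 2 * η) := by
    have h1 : (((Finset.range 16).biUnion (fun r => High r)).card : ℝ) ≤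
        ∑ r ∈ Finset.range 16, ((High r).card : ℝ) := by
      exact_mod_cast Finset.card_biUnion_le
    refine h1.trans ?_
    have h2 : ∀ r ∈ Finset.range 16, ((High r).card : ℝ) ≤ (X : ℝ) ^ (1 - 2 * η) := by
      intro r hr
      have hr' : r < Qz 2 := by rw [Qz_two]; exact Finset.mem_range.1 hr
      exact hHigh r hr'
    refine (Finset.sum_le_sum h2).trans ?_
    rw [Finset.sum_const, Finset.card_range, nsmul_eq_mul]
    push_cast
    exact le_rfl
  have hcard : (((Finset.Ioc X (2 * X)).filter (fun D => IsFund D ∧ BadA a ε X D)).card : ℝ) ≤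
      ((((Finset.range 16).biUnion (fun r => High r)).card : ℕ) : ℝ) := by
    exact_mod_cast Finset.card_le_card hcover
  refine hcard.trans (hfin.trans ?_)
  have h16 : (16 : ℝ) ≤ (X : ℝ) ^ (η / 2) := by linarith
  calc 16 * (X : ℝ) ^ (1 - 2 * η) ≤ (X : ℝ) ^ (η / 2) * (X : ℝ) ^ (1 - 2 * η) := by gcongr
    _ = (X : ℝ) ^ (η / 2 + (1 - 2 * η)) := by rw [← Real.rpow_add hX0]
    _ ≤ _ := Real.rpow_le_rpow_of_exponent_le hXr (by linarith)

/-- the property of the radicand, for sets of prime ideals -/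
def GoodA (a ε : ℝ) (d : ℕ) : Prop :=
  ∀ (K : Type) [Field K] [NumberField K], Module.finrank ℚ K = 2 → (∃ x : K, x ^ 2 = (d : K)) →
    ∀ σ τ : K →+* ℝ, σ ≠ τ → ∀ c : ℝ, 1 / 2 + 1 / (2 * a) ≤ c → c ≤ 1 →
    ∀ W : Set (nonZeroDivisors (Ideal (𝓞 K))),
      (∀ J ∈ W, (J : Ideal (𝓞 K)).IsPrime ∧
        ((Ideal.absNorm (J : Ideal (𝓞 K)) : ℕ) : ℝ) ≤ (Real.log d) ^ a) →
      (Real.log d) ^ (a * c) ≤ (W.ncard : ℝ) →
      ∀ Z : Finset (Ideal (𝓞 K)), Cov σ τ W (Real.log d / Real.log (Real.log d)) Z →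
      (d : ℝ) ^ (1 / 2 - EE a c - ε) ≤ (Z.card : ℝ)

theorem Cov.mono {K : Type} [Field K] [NumberField K] {σ τ : K →+* ℝ}
    {W : Set (nonZeroDivisors (Ideal (𝓞 K)))} {n n' : ℝ} {Z : Finset (Ideal (𝓞 K))}
    (h : Cov σ τ W n' Z) (hn : n ≤ n') : Cov σ τ W n Z :=
  fun L h1 h2 => h L h1 (h2.trans hn)

/-- All but `O(X^(1-δ))` radicands up to `X` are good. -/
theorem main (a : ℝ) (ha : 1 < a) (ε : ℝ) (hε : 0 < ε) : ∃ δ C : ℝ, 0 < δ ∧ 0 < C ∧
    ∀ X : ℕ, (((Finset.Icc 2 X).filter (fun d => Squarefree d ∧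
      ¬ GoodA a ε d)).card : ℝ) ≤ C * (X : ℝ) ^ (1 - δ) := by
  have h_P_N0 : P_N0 := T_N0
  have h_P_N0d : P_N0d := T_N0d
  have h_P_SPL : P_SPL := T_SPL h_P_N0
  have h_P_N2 : P_N2 := T_N2 h_P_SPL
  have h_P_KF : P_KF := T_KF
  have h_P_N6 : P_N6 := T_N6 h_P_KF
  obtain ⟨δ, hδ, hδ2, X0, hX0⟩ := count_bad h_P_N0 h_P_N2 h_P_KF h_P_N6 a ha (ε / 2)
    (by positivity)
  have ha0 : 0 < a := by linarith
  obtain ⟨X1, hX1⟩ := Filter.eventually_atTop.1 (few a ha)
  obtain ⟨X2, hX2⟩ := Filter.eventually_atTop.1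
    (ERRh.ev_const (ε / 2) (by positivity) ((4 : ℝ) ^ (1 / 2 + ε)))
  -- a bad radicand gives a bad discriminant
  have key : ∀ Y : ℕ, X0 ≤ Y → X1 ≤ Y → X2 ≤ Y → 1 ≤ Y → ∀ d : ℕ, Y < d → d ≤ 2 * Y →
      Squarefree d → ¬ GoodA a ε d → ∀ X : ℕ, X1 ≤ X → X2 ≤ X → X ≤ 4 * d → d ≤ 2 * X →
      X ≤ 4 * Y →
      IsFund (Dof d) ∧ BadA a (ε / 2) X (Dof d) := by
    intro Y _ _ hY2 hY1 d hd1 hd2 hsq hbad X hXX1 hXX2 hX4 hdX hX4Y
    have hd : 1 < d := by omega
    refine ⟨isFund_Dof hd hsq, ?_⟩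
    unfold GoodA at hbad
    push Not at hbad
    obtain ⟨K, i1, i2, h2, hx, σ, τ, hστ, c, hc1, hc2, W, hW, hWc, Z, hZ, hlt⟩ := hbad
    obtain ⟨g1, g2, g3, -⟩ := hX1 X hXX1 d hX4 hdX
    have hdr : (0 : ℝ) < d := by
      have : 0 < d := by omega
      exact_mod_cast this
    have hXr : (0 : ℝ) < X := by
      have : 0 < X := by omega
      exact_mod_cast this
    have hlogd : 0 ≤ Real.log d := Real.log_natCast_nonneg d
    have hlogX : 0 ≤ Real.log X := Real.log_natCast_nonneg X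
    refine ⟨K, i1, i2, h2, ?_, σ, τ, hστ, c, hc1, hc2, W, ?_, ?_, Z, hZ.mono g1, ?_⟩
    · rw [h_P_N0d K d hd hsq h2 hx]
      unfold Dof
      split_ifs <;> push_cast <;> rfl
    · intro J hJ
      refine ⟨(hW J hJ).1, (hW J hJ).2.trans ?_⟩
      exact Real.rpow_le_rpow hlogd g2 ha0.le
    · refine le_trans ?_ hWc
      apply Real.rpow_le_rpow (by positivity) g3
      have : 0 < 1 / (2 * a) := by positivity
      have : 0 ≤ c := by linarith
      positivity
    · refine not_le.2 (lt_of_lt_of_le hlt ?_)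
      have hE0 := EE_nonneg a c ha hc2
      have hE1 := EE_le a c ha hc1
      set p : ℝ := 1 / 2 - EE a c - ε with hp
      have hp1 : p ≤ 1 / 2 + ε := by linarith
      have hp2 : -p ≤ 1 / 2 + ε := by linarith
      have h4X : (4 : ℝ) ^ (1 / 2 + ε) ≤ (X : ℝ) ^ (ε / 2) := hX2 X hXX2
      have hr : ((d : ℝ) / X) ^ p ≤ (4 : ℝ) ^ (1 / 2 + ε) := by
        have hdX' : (d : ℝ) / X ≤ 4 := by
          rw [div_le_iff₀ hXr]
          have : (d : ℝ) ≤ 2 * X := by exact_mod_cast hdX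
          linarith
        have hXd' : (X : ℝ) / d ≤ 4 := by
          rw [div_le_iff₀ hdr]
          exact_mod_cast hX4
        rcases le_or_gt 0 p with h0 | h0
        · calc ((d : ℝ) / X) ^ p ≤ 4 ^ p := Real.rpow_le_rpow (by positivity) hdX' h0
            _ ≤ _ := Real.rpow_le_rpow_of_exponent_le (by norm_num) hp1
        · have h5 : ((d : ℝ) / X) ^ p = ((X : ℝ) / d) ^ (-p) := by
            rw [← inv_div, Real.inv_rpow (by positivity), Real.rpow_neg (by positivity)]
          rw [h5]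
          calc ((X : ℝ) / d) ^ (-p) ≤ 4 ^ (-p) := Real.rpow_le_rpow (by positivity) hXd' (by linarith)
            _ ≤ _ := Real.rpow_le_rpow_of_exponent_le (by norm_num) hp2
      calc (d : ℝ) ^ p = ((d : ℝ) / X) ^ p * (X : ℝ) ^ p := by
            rw [← Real.mul_rpow (by positivity) hXr.le, div_mul_cancel₀ _ hXr.ne']
        _ ≤ (X : ℝ) ^ (ε / 2) * (X : ℝ) ^ p := by
            apply mul_le_mul_of_nonneg_right (hr.trans h4X) (by positivity)
        _ = (X : ℝ) ^ (1 / 2 - EE a c - ε / 2) := by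
            rw [← Real.rpow_add hXr]
            congr 1
            ring
  have hdy := dyadic (fun S => (S.filter (fun d => Squarefree d ∧ ¬ GoodA a ε d)).card)
    (fun d => Squarefree d ∧ ¬ GoodA a ε d) (fun S => by congr) δ hδ hδ2
    (max (max X0 X1) (max X2 1)) (by
      intro Y hY
      have hY0 : X0 ≤ Y := le_trans (le_trans (le_max_left _ _) (le_max_left _ _)) hY
      have hY1 : X1 ≤ Y := le_trans (le_trans (le_max_right _ _) (le_max_left _ _)) hY
      have hY2 : X2 ≤ Y := le_trans (le_trans (le_max_left _ _) (le_max_right _ _)) hY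
      have hY3 : 1 ≤ Y := le_trans (le_trans (le_max_right _ _) (le_max_right _ _)) hY
      have hYr : (0 : ℝ) < Y := by exact_mod_cast hY3
      set S := (Finset.Ioc Y (2 * Y)).filter (fun d => Squarefree d ∧ ¬ GoodA a ε d) with hS
      set A := (Finset.Ioc Y (2 * Y)).filter (fun D => IsFund D ∧ BadA a (ε / 2) Y D) with hA
      set B := (Finset.Ioc (4 * Y) (2 * (4 * Y))).filter
        (fun D => IsFund D ∧ BadA a (ε / 2) (4 * Y) D) with hB
      have hA' := hX0 Y hY0
      have hB' := hX0 (4 * Y) (by omega)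
      have hinj : S.card ≤ (A ∪ B).card := by
        refine Finset.card_le_card_of_injOn Dof ?_ ?_
        · intro d hd
          rw [Finset.mem_coe] at hd ⊢
          obtain ⟨h1, h2, h3⟩ := Finset.mem_filter.1 hd
          obtain ⟨h4, h5⟩ := Finset.mem_Ioc.1 h1
          rw [Finset.mem_union]
          by_cases h : d % 4 = 1
          · left
            have hDof : Dof d = d := by unfold Dof; rw [if_pos h]
            have hk := key Y hY0 hY1 hY2 hY3 d h4 h5 h2 h3 Y hY1 hY2 (by omega) (by omega) (by omega)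
            rw [hA, Finset.mem_filter, Finset.mem_Ioc]
            exact ⟨by rw [hDof]; exact ⟨h4, h5⟩, hk⟩
          · right
            have hDof : Dof d = 4 * d := by unfold Dof; rw [if_neg h]
            have hk := key Y hY0 hY1 hY2 hY3 d h4 h5 h2 h3 (4 * Y) (by omega) (by omega)
              (by omega) (by omega) (by omega)
            rw [hB, Finset.mem_filter, Finset.mem_Ioc]
            exact ⟨by rw [hDof]; omega, hk⟩
        · intro d _ d' _ hdd
          unfold Dof at hdd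
          split_ifs at hdd <;> omega
      have h1 : (S.card : ℝ) ≤ A.card + B.card := by
        exact_mod_cast hinj.trans (Finset.card_union_le _ _)
      have h4Y : (((4 * Y : ℕ) : ℝ)) ^ (1 - δ) ≤ 4 * (Y : ℝ) ^ (1 - δ) := by
        push_cast
        rw [Real.mul_rpow (by norm_num) hYr.le]
        apply mul_le_mul_of_nonneg_right _ (by positivity)
        calc (4 : ℝ) ^ (1 - δ) ≤ (4 : ℝ) ^ (1 : ℝ) :=
              Real.rpow_le_rpow_of_exponent_le (by norm_num) (by linarith)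
          _ = 4 := Real.rpow_one 4
      show ((S.card : ℕ) : ℝ) ≤ 5 * (Y : ℝ) ^ (1 - δ)
      linarith)
  obtain ⟨C, hC, hfin⟩ := hdy
  exact ⟨δ, C, hδ, hC, hfin⟩

end Pool.Agent.W24.AR
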